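import Mathlib
import Pool.Agent.Helper92.AH.All

set_option autoImplicit false

namespace Pool.Agent.Results.MP_c38931_co.AlgebraicFamilies

open MvPolynomial

/-- The `E`-points of the constructible set `(P, T)` defined over `F`: all points `x` of affine
`N`-space over `E` for which the set of indices `i` with `P i (x) = 0` is a member of `T`. -/
def Pts {F : Type} [Field F] {N a : ℕ} (P : Fin a → MvPolynomial (Fin N) F)
    (T : Set (Set (Fin a))) (E : Type) [Field E] [Algebra F E] : Set (Fin N → E) :=
  {x | {i | aeval x (P i) = 0} ∈ T}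

/-- The constructible incidence relation `(R, W)` defined over `F`: the point `x` of affine
`N`-space and the point `y` of affine `M`-space are incident if the set of indices `i` with
`R i (x, y) = 0` is a member of `W`. -/
def Inc {F : Type} [Field F] {N M c : ℕ} (R : Fin c → MvPolynomial (Fin N ⊕ Fin M) F)
    (W : Set (Set (Fin c))) {E : Type} [Field E] [Algebra F E] (x : Fin N → E) (y : Fin M → E) :
    Prop :=
  {i | aeval (Sum.elim x y) (R i) = 0} ∈ W

/-- The finite sets `X` (points) and `Y` (blocks) with incidence `I` form a symmetric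
`2-(v, k, l)` design: `v = |X| = |Y|`, every block is incident with `k < v` points, and any two
distinct points are incident with exactly `l` common blocks. -/
def SymDesign {α β : Type} (X : Set α) (Y : Set β) (I : α → β → Prop) (l : ℕ) : Prop :=
  X.Finite ∧ Y.Finite ∧ X.ncard = Y.ncard ∧
    ∃ k, k < X.ncard ∧ (∀ y ∈ Y, {x | x ∈ X ∧ I x y}.ncard = k) ∧
      ∀ x ∈ X, ∀ x' ∈ X, x ≠ x' → {y | y ∈ Y ∧ I x y ∧ I x' y}.ncard = l

/-- Let `F` be a finite field, `X = (P, T)` and `Y = (Q, U)` constructible sets and `(R, W)` a
constructible incidence relation between them, all over `F`, and let `m > 0`.  Suppose that for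
every finite extension `E` of `F` whose degree is divisible by `m` the structure
`(X(E), Y(E), I)` is a symmetric design of some index between `1` and `L`.  Then either
`|X(E)| ≤ 3 ^ a * (a * d) ^ N` for every finite extension `E` of `F`, where `a` is the number of
polynomials defining `X` and `d` bounds their degrees in every variable, or all these designs
have index `1`. -/
theorem result (F : Type) [Field F] [Finite F] (N M a b c d : ℕ)
    (P : Fin a → MvPolynomial (Fin N) F) (T : Set (Set (Fin a)))
    (Q : Fin b → MvPolynomial (Fin M) F) (U : Set (Set (Fin b)))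
    (R : Fin c → MvPolynomial (Fin N ⊕ Fin M) F) (W : Set (Set (Fin c))) (L m : ℕ)
    (hd : ∀ i j, degreeOf j (P i) ≤ d) (hm : 0 < m)
    (h : ∀ (E : Type) [Field E] [Finite E] [Algebra F E], m ∣ Module.finrank F E →
      ∃ l, 1 ≤ l ∧ l ≤ L ∧ SymDesign (Pts P T E) (Pts Q U E) (Inc R W) l) :
    (∀ (E : Type) [Field E] [Finite E] [Algebra F E],
      (Pts P T E).ncard ≤ 3 ^ a * (a * d) ^ N) ∨
    (∀ (E : Type) [Field E] [Finite E] [Algebra F E], m ∣ Module.finrank F E →
      SymDesign (Pts P T E) (Pts Q U E) (Inc R W) 1) :=
  Pool.Agent.Helper92.AH.t_MAINX F N M a b c d P T Q U R W L m hd hm h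

end Pool.Agent.Results.MP_c38931_co.AlgebraicFamilies
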