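import Mathlib
import Pool.Agent.Helper17.FP.Final

set_option autoImplicit false

namespace Pool.Agent.Results.MP_c38931_co.PrimePowerOrder

/-- For every `lam ≥ 1` there is `C` such that for all `x ≥ 16` at most `C x / (log log x) ^ (1 / 4)`
integers `k ≤ x` are the block size of a symmetric `(v, k, lam)` design, `v > k`, which has either
an automorphism whose order is a power of a prime divisor `q` of `v` and whose number of fixed
points is even (for example zero), or a point-transitive group of automorphisms, and `v` has a prime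
divisor `q` with `v < q ^ 2`. -/
theorem result (lam : ℕ) (hlam : 1 ≤ lam) :
    ∃ C : ℝ, ∀ x : ℕ, 16 ≤ x → ∀ S : Finset ℕ,
      (∀ k ∈ S, 1 ≤ k ∧ k ≤ x ∧ ∃ (v : ℕ) (B : Fin v → Finset (Fin v)), k < v ∧
        (∀ i, (B i).card = k) ∧
        (∀ a b : Fin v, a ≠ b →
          (Finset.univ.filter (fun i => a ∈ B i ∧ b ∈ B i)).card = lam) ∧
        ((∃ (q r : ℕ) (g : Equiv.Perm (Fin v)), q.Prime ∧ q ∣ v ∧ g ^ q ^ r = 1 ∧
            Even (Nat.card {a : Fin v // g a = a}) ∧ ∀ i, ∃ j, B j = (B i).image g) ∨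
          ∃ (q : ℕ) (G : Subgroup (Equiv.Perm (Fin v))), q.Prime ∧ q ∣ v ∧ v < q ^ 2 ∧
            (∀ g ∈ G, ∀ i, ∃ j, B j = (B i).image g) ∧ ∀ a b : Fin v, ∃ g ∈ G, g a = b)) →
      (S.card : ℝ) ≤ C * x * Real.log (Real.log x) ^ (-(1 / 4) : ℝ) :=
  Pool.Agent.Helper17.FP.fin_mainF lam hlam

end Pool.Agent.Results.MP_c38931_co.PrimePowerOrder
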