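import Mathlib
import Pool.Agent.Helper17.CR.Fin2

set_option autoImplicit false

namespace Pool.Agent.Results.MP_c38931_co.SolvableCorrelation

universe u

/-- For all `lam ≥ 1` and `R` there is `K` such that a symmetric `(v, k, lam)` design has `v ≤ K`
if it has a correlation `θ` (of points onto blocks, extended to the blocks by `θ y ↦ σ y`) commuting
with a solvable semiregular group `H` with at most `R` orbits on the points. -/
theorem result (lam R : ℕ) (hlam : 1 ≤ lam) : ∃ K : ℕ, ∀ (X : Type u) [Fintype X] [DecidableEq X]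
    (blocks : Finset (Finset X)) (k : ℕ) (θ : X → Finset X) (σ : X → X)
    (H : Subgroup (Equiv.Perm X)),
    blocks.card = Fintype.card X →
    (∀ b ∈ blocks, b.card = k) →
    (∀ x y : X, x ≠ y → (blocks.filter (fun b => x ∈ b ∧ y ∈ b)).card = lam) →
    (∀ x, θ x ∈ blocks) →
    Function.Injective θ →
    (∀ x y, x ∈ θ y ↔ σ y ∈ θ x) →
    (∀ h ∈ H, ∀ x, θ (h x) = (θ x).image h) →
    (∀ h ∈ H, ∀ x, h x = x → h = 1) →
    Fintype.card X ≤ R * Nat.card H →
    Group.IsSolvable H →
    Fintype.card X ≤ K :=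
  Pool.Agent.Helper17.CR.main2.{u} Pool.Agent.Helper17.CR.fin_DES
    Pool.Agent.Helper30.CR.st_NUMQ Pool.Agent.Helper39.CR.st_CENT Pool.Agent.Helper17.CR.fin_SOLV2
    lam R hlam

end Pool.Agent.Results.MP_c38931_co.SolvableCorrelation
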