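import Mathlib
import Pool.Agent.Helper17.SV.Final

set_option autoImplicit false

namespace Pool.Agent.Results.MP_c38931_co.SolvableOrbits

/-- Let `lam ≥ 1`, `ε > 0`, and `e = 1`, or `e = 9 / 8` if `lam` is not a square. There is `C` such
that for all integers `2 ≤ W ≤ x` at most `C x (log W / log x) ^ (e - ε)` integers `k ≤ x` are the
block size of a symmetric `(v, k, lam)` design, `v > k`, which has either a solvable group of
automorphisms all of whose point orbits have the same length, with at most `W` orbits, or, for each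
prime `q > W` dividing `v` to an odd power, an automorphism of order a power of `q` with an even
number of fixed points. -/
theorem result (lam : ℕ) (hlam : 1 ≤ lam) (e ε : ℝ)
    (he : e = 1 ∨ (e = 9 / 8 ∧ ¬ IsSquare lam)) (hε : 0 < ε) :
    ∃ C : ℝ, ∀ x W : ℕ, 2 ≤ W → W ≤ x → ∀ S : Finset ℕ,
      (∀ k ∈ S, 1 ≤ k ∧ k ≤ x ∧ ∃ (v : ℕ) (B : Fin v → Finset (Fin v)), k < v ∧
        (∀ i, (B i).card = k) ∧
        (∀ a b : Fin v, a ≠ b →
          (Finset.univ.filter (fun i => a ∈ B i ∧ b ∈ B i)).card = lam) ∧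
        ((∃ (G : Subgroup (Equiv.Perm (Fin v))) (u : ℕ), Group.IsSolvable G ∧
            (∀ g ∈ G, ∀ i, ∃ j, B j = (B i).image g) ∧
            v ≤ W * u ∧ ∀ a, Nat.card {b : Fin v // ∃ g ∈ G, g a = b} = u) ∨
          ∀ q : ℕ, q.Prime → W < q → Odd (v.factorization q) →
            ∃ (g : Equiv.Perm (Fin v)) (r : ℕ), g ^ q ^ r = 1 ∧
              Even (Nat.card {a : Fin v // g a = a}) ∧ ∀ i, ∃ j, B j = (B i).image g)) →
      (S.card : ℝ) ≤ C * x * (Real.log W / Real.log x) ^ (e - ε) :=
  Pool.Agent.Helper17.SV.fin_main lam hlam e ε he hε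

end Pool.Agent.Results.MP_c38931_co.SolvableOrbits
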